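import Pool.Agent.R83.WeakRainbow

set_option autoImplicit false

/-!
# Weak rainbow saturation numbers of complete graphs: `rwsat(n, K_r) ≤ (r - 1) n + C`
-/

namespace Pool.Agent.Results.MP_d10f6f_co.WeakRainbowUpper

open Pool.Agent.R83.WR

/-- For every `r ≥ 3` there is a constant `C` such that for every `n` there is a weakly `K_r`-rainbow saturated
edge-coloured graph on `n` vertices with at most `(r - 1) n + C` edges; so `rwsat(n, K_r) ≤ (r - 1) n + C`. -/
theorem result : ∀ r : ℕ, 3 ≤ r → ∃ C : ℕ, ∀ n : ℕ,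
    (∃ (G : SimpleGraph (Fin n)) (χ : Sym2 (Fin n) → ℕ), IsWeaklySat r G χ ∧
      G.edgeSet.ncard ≤ (r - 1) * n + C) ∧
    rwsat n r ≤ (r - 1) * n + C := fun r hr =>
  ⟨MM r * MM r, fun n => ⟨exists_weaklySat r hr n, rwsat_le r hr n⟩⟩

end Pool.Agent.Results.MP_d10f6f_co.WeakRainbowUpper
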